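import Pool.Agent.Lib.MP_df4edf_co.Main
import Pool.Agent.Lib.MP_df4edf_co.Moment

/-!
Let `P` be `n` points in general position in `R^d`, `d ≥ 2`, and let `F` be a family of
`d`-simplices spanned by `P` (encoded by their vertex sets) such that every `d` members of `F`
have a common interior point.  Then `F` has at most
`C(⌊(n+d)/2⌋, d+1) + C(⌈(n+d)/2⌉, d+1)` members.  For every `n` the bound is attained, by the
family of all simplices which contain the origin in their interiors, for a suitable `P`.
-/

namespace Pool.Agent.Results.MP_df4edf_co.DWiseSimplexMaximum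

open Finset

/-- First part: the upper bound for `d`-wise interior-intersecting families of simplices; the
last hypothesis only concerns the degenerate case of fewer than `d` simplices on `d + 2` points,
in which the hypothesis before it is vacuous.  Second part: the bound is attained for every `n`
by the simplices around one point. -/
theorem result (d : ℕ) (hd : 2 ≤ d) :
    (∀ (P : Finset (EuclideanSpace ℝ (Fin d))) (F : Finset (Finset (EuclideanSpace ℝ (Fin d)))),
      (∀ T ⊆ P, #T = d + 1 → AffineIndependent ℝ ((↑) : T → EuclideanSpace ℝ (Fin d))) →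
      (∀ T ∈ F, T ⊆ P ∧ #T = d + 1) →
      (∀ G ⊆ F, #G = d →
        (⋂ T ∈ G, interior (convexHull ℝ (T : Set (EuclideanSpace ℝ (Fin d))))).Nonempty) →
      (#F < d → #P = d + 2 →
        (⋂ T ∈ F, interior (convexHull ℝ (T : Set (EuclideanSpace ℝ (Fin d))))).Nonempty) →
      #F ≤ ((#P + d) / 2).choose (d + 1) + ((#P + d + 1) / 2).choose (d + 1)) ∧
    (∀ n : ℕ, ∃ P : Finset (EuclideanSpace ℝ (Fin d)), #P = n ∧
      (∀ T ⊆ P, #T = d + 1 → AffineIndependent ℝ ((↑) : T → EuclideanSpace ℝ (Fin d))) ∧
      {T : Finset (EuclideanSpace ℝ (Fin d)) | T ⊆ P ∧ #T = d + 1 ∧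
          (0 : EuclideanSpace ℝ (Fin d)) ∈
            interior (convexHull ℝ (T : Set (EuclideanSpace ℝ (Fin d))))}.ncard
        = ((n + d) / 2).choose (d + 1) + ((n + d + 1) / 2).choose (d + 1)) := by
  classical
  have hfin : Module.finrank ℝ (EuclideanSpace ℝ (Fin d)) = d := by simp
  have hgp : ∀ P : Finset (EuclideanSpace ℝ (Fin d)),
      (∀ T ⊆ P, #T = d + 1 → AffineIndependent ℝ ((↑) : T → EuclideanSpace ℝ (Fin d))) →
      Pool.Agent.Lib.MP_df4edf_co.GenPos P := by
    intro P hP T hT hc
    rw [hfin] at hc
    exact hP T hT hc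
  constructor
  · intro P F hP hF h h'
    have hmono : ∀ G G' : Finset (Finset (EuclideanSpace ℝ (Fin d))), G ⊆ G' →
        (⋂ T ∈ G', interior (convexHull ℝ (T : Set (EuclideanSpace ℝ (Fin d))))).Nonempty →
        (⋂ T ∈ G, interior (convexHull ℝ (T : Set (EuclideanSpace ℝ (Fin d))))).Nonempty := by
      intro G G' hGG hne
      obtain ⟨x, hx⟩ := hne
      refine ⟨x, ?_⟩
      rw [Set.mem_iInter₂] at hx ⊢
      exact fun T hT => hx T (hGG hT)
    rcases le_or_gt d (#F) with hle | hlt
    · apply Pool.Agent.Lib.MP_df4edf_co.card_le d hfin hd P (hgp P hP) F hF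
      intro G hG hGc
      obtain ⟨G', hGG', hG'F, hG'c⟩ := Finset.exists_subsuperset_card_eq hG hGc hle
      exact hmono G G' hGG' (h G' hG'F hG'c)
    · by_cases hn : #P = d + 2
      · apply Pool.Agent.Lib.MP_df4edf_co.card_le d hfin hd P (hgp P hP) F hF
        intro G hG _
        exact hmono G F hG (h' hlt hn)
      · rcases F.eq_empty_or_nonempty with rfl | hne
        · simp
        obtain ⟨T, hT⟩ := hne
        have h1 : d + 1 ≤ #P := (hF T hT).2 ▸ Finset.card_le_card (hF T hT).1
        rcases Nat.lt_or_ge (#P) (d + 2) with h2 | h2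
        · have h3 : #P = d + 1 := by omega
          have h4 : F ⊆ {P} := by
            intro X hX
            rw [Finset.mem_singleton]
            exact Finset.eq_of_subset_of_card_le (hF X hX).1 (by rw [(hF X hX).2, h3])
          have h5 := Finset.card_le_card h4
          rw [Finset.card_singleton] at h5
          have h6 : (#P + d + 1) / 2 = d + 1 := by omega
          rw [h6, Nat.choose_self]
          omega
        · have h3 : d + 2 ≤ (#P + d + 1) / 2 := by omega
          have h4 := Nat.choose_le_choose (d + 1) h3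
          have h5 : (d + 2).choose (d + 1) = d + 2 := by simp
          rw [h5] at h4
          omega
  · intro n
    obtain ⟨P, hPn, hP, F, hF, hle⟩ := Pool.Agent.Lib.MP_df4edf_co.exists_config d hd n
    refine ⟨P, hPn, hP, ?_⟩
    have hset : {T : Finset (EuclideanSpace ℝ (Fin d)) | T ⊆ P ∧ #T = d + 1 ∧
          (0 : EuclideanSpace ℝ (Fin d)) ∈
            interior (convexHull ℝ (T : Set (EuclideanSpace ℝ (Fin d))))}
        = (F : Set (Finset (EuclideanSpace ℝ (Fin d)))) := by
      ext T
      rw [Finset.mem_coe, hF T]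
      rfl
    rw [hset, Set.ncard_coe_finset]
    refine le_antisymm ?_ hle
    rw [← hPn]
    apply Pool.Agent.Lib.MP_df4edf_co.card_le d hfin hd P (hgp P hP) F
    · intro T hT
      have := (hF T).1 hT
      exact ⟨this.1, this.2.1⟩
    · intro G hG _
      refine ⟨0, ?_⟩
      rw [Set.mem_iInter₂]
      intro T hT
      exact ((hF T).1 (hG hT)).2.2

end Pool.Agent.Results.MP_df4edf_co.DWiseSimplexMaximum
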